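import Pool.Agent.H983R2.Polymer.Main

open MeasureTheory ProbabilityTheory Filter Topology
open scoped ENNReal
open Pool.Agent.H983R2.Polymer

namespace Pool.Agent.Results.MP_7d29a1_pr.HeavyLeftTail

/-- The statement of Q1: there are exponents depending on the dimension only, with the
asserted relations, which are the exponents of the polymer for every disorder law and every `β`
in the strong disorder phase. -/
def Question : Prop :=
  ∃ ν χ : ℕ → EReal, (∀ d, 1 ≤ d → χ d = 2 * ν d - 1) ∧ ν 1 = ((2 / 3 : ℝ) : EReal) ∧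
    ((1 / 2 : ℝ) : EReal) < ν 2 ∧ ν 2 < ((2 / 3 : ℝ) : EReal) ∧
    ∀ d : ℕ, 1 ≤ d → ∀ (μ : Measure ℝ) [IsProbabilityMeasure μ], IsDisorder μ →
      ∀ β : ℝ, 0 ≤ β → SD d μ β → nu d μ β = ν d ∧ chi d μ β = χ d

/-- Q1 is false; in every dimension `d` there is an explicit disorder law, supported on `(-∞,0]`,
for which `log Z_n` is integrable with infinite variance for all `n ≥ 1` and `β > 0`, and for which
strong disorder holds and `χ = ∞ ≠ 2ν - 1` for all `β > 2 log (8d)`. -/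
theorem result :
    ¬ Question ∧
    ∀ d : ℕ, 1 ≤ d → ∃ (μ : Measure ℝ) (_ : IsProbabilityMeasure μ), IsDisorder μ ∧
      (∀ᵐ x ∂μ, x ≤ 0) ∧
      (∀ n : ℕ, 1 ≤ n → ∀ β : ℝ, 0 < β →
        Integrable (fun ω => Real.log (Z d n β ω)) (env d μ) ∧
        evariance (fun ω => Real.log (Z d n β ω)) (env d μ) = ∞) ∧
      ∀ β : ℝ, 2 * Real.log (8 * d) < β →
        SD d μ β ∧ chi d μ β = ⊤ ∧ nu d μ β ≤ 1 ∧ chi d μ β ≠ 2 * nu d μ β - 1 := by
  have hmain : ∀ d : ℕ, 1 ≤ d → ∃ (μ : Measure ℝ) (_ : IsProbabilityMeasure μ), IsDisorder μ ∧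
      (∀ᵐ x ∂μ, x ≤ 0) ∧
      (∀ n : ℕ, 1 ≤ n → ∀ β : ℝ, 0 < β →
        Integrable (fun ω => Real.log (Z d n β ω)) (env d μ) ∧
        evariance (fun ω => Real.log (Z d n β ω)) (env d μ) = ∞) ∧
      ∀ β : ℝ, 2 * Real.log (8 * d) < β →
        SD d μ β ∧ chi d μ β = ⊤ ∧ nu d μ β ≤ 1 ∧ chi d μ β ≠ 2 * nu d μ β - 1 := by
    intro d hd
    refine ⟨law d, inferInstance, isDisorder hd, law_nonpos d, ?_, ?_⟩
    · intro n hn β hβ
      exact ⟨integrable_logZ hd hn hβ.le, evariance_logZ hd hn hβ⟩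
    · intro β hβ
      have hd1 : (1 : ℝ) ≤ d := by exact_mod_cast hd
      have hlog : 0 < Real.log (8 * d) := Real.log_pos (by linarith)
      have hβ0 : 0 < β := by linarith
      exact ⟨SD_law hd hβ, chi_law hd hβ0, nu_le_one hd _ β, chi_ne hd hβ0⟩
  refine ⟨?_, hmain⟩
  rintro ⟨ν, χ, hrel, -, -, -, hall⟩
  obtain ⟨μ, hμ, hdis, -, -, h⟩ := hmain 1 le_rfl
  have hlog : 0 < Real.log (8 * ((1 : ℕ) : ℝ)) := Real.log_pos (by norm_num)
  obtain ⟨hSD, -, -, hne⟩ := h (2 * Real.log (8 * ((1 : ℕ) : ℝ)) + 1) (by linarith)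
  obtain ⟨h1, h2⟩ := hall 1 le_rfl μ hdis _ (by linarith) hSD
  exact hne (by rw [h1, h2]; exact hrel 1 le_rfl)

end Pool.Agent.Results.MP_7d29a1_pr.HeavyLeftTail
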